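import Pool.Agent.L0h14.OE.Stm

/-!
# Modules Fd, LowEq, TotIso
-/

universe u v

open CategoryTheory

set_option autoImplicit false

namespace Pool.Agent.L0h65.OE

open Pool.Agent.N174.OC Pool.Agent.L0h14.ORN Pool.Agent.Y107 Pool.Agent.L0h14.OE

lemma finrank_eq_of_inverse {M N : Type*} [AddCommGroup M] [Module ℚ M] [AddCommGroup N] [Module ℚ N]
    (A : Submodule ℚ M) (B : Submodule ℚ N) (φ : M →ₗ[ℚ] N) (ψ : N →ₗ[ℚ] M)
    (h1 : ∀ x ∈ A, φ x ∈ B) (h2 : ∀ y ∈ B, ψ y ∈ A) (h3 : ∀ x ∈ A, ψ (φ x) = x) (h4 : ∀ y ∈ B, φ (ψ y) = y) :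
    Module.finrank ℚ A = Module.finrank ℚ B :=
  LinearEquiv.finrank_eq (LinearEquiv.ofLinear (φ.restrict h1) (ψ.restrict h2)
    (LinearMap.ext fun y => Subtype.ext (h4 y.1 y.2)) (LinearMap.ext fun x => Subtype.ext (h3 x.1 x.2)))

theorem t_Fd : S_Fd.{u, v} := by
  intro 𝒱 _ _ _ T
  have key : ∀ X Y : 𝒱, FiniteDimensional ℚ (T.NH X Y) := by
    intro X Y
    obtain ⟨n, φ, hφ⟩ := T.finiteHom X Y
    haveI : FiniteDimensional ℚ ((X ⟶ Y) ⧸ LinearMap.ker φ) :=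
      Module.Finite.equiv (φ.quotKerEquivRange).symm
    refine Module.Finite.of_surjective
      ((LinearMap.ker φ).mapQ (T.triv X Y) LinearMap.id (fun a ha => hφ a (LinearMap.mem_ker.1 ha))) ?_
    intro x
    obtain ⟨f, rfl⟩ := T.cl_surj x
    exact ⟨Submodule.Quotient.mk f, rfl⟩
  refine ⟨key, fun A B => ?_⟩
  haveI := key A.V B.V
  change FiniteDimensional ℚ (T.gN A.V B.V (B.k - A.k))
  infer_instance

theorem t_LowEq : S_LowEq.{u, v} := by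
  intro 𝒱 _ _ _ T m C X Y hm hC p i hi
  obtain ⟨γ, hγ, γ', hγ', h1, h2⟩ := hm
  refine finrank_eq_of_inverse _ _ (T.nc.flip (T.cl γ)) (T.nc.flip (T.cl γ')) ?_ ?_ ?_ ?_
  · intro h hh
    rw [T.mem_FixN] at hh ⊢
    refine ⟨?_, ?_⟩
    · have := T.nc_mem hh.1 (show T.cl γ ∈ T.gN X Y 0 from ⟨γ, hγ, rfl⟩)
      rwa [add_zero] at this
    · rw [LinearMap.flip_apply, ← T.nc_assoc, hh.2]
  · intro h hh
    rw [T.mem_FixN] at hh ⊢
    refine ⟨?_, ?_⟩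
    · have := T.nc_mem hh.1 (show T.cl γ' ∈ T.gN Y X 0 from ⟨γ', hγ', rfl⟩)
      rwa [add_zero] at this
    · rw [LinearMap.flip_apply, ← T.nc_assoc, hh.2]
  · intro h hh
    rw [T.mem_FixN] at hh
    obtain ⟨f, hf, rfl⟩ := hh.1
    rw [LinearMap.flip_apply, LinearMap.flip_apply, T.nc_cl, T.nc_cl, T.cl_eq, Category.assoc]
    exact h1 C i hC hi f hf
  · intro h hh
    rw [T.mem_FixN] at hh
    obtain ⟨f, hf, rfl⟩ := hh.1
    rw [LinearMap.flip_apply, LinearMap.flip_apply, T.nc_cl, T.nc_cl, T.cl_eq, Category.assoc]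
    exact h2 C i hC hi f hf

theorem t_TotIso : S_TotIso.{u, v} := by
  intro 𝒱 _ _ _ T C X Y p v w hv hw
  refine finrank_eq_of_inverse _ _ (T.nc.flip (T.cl v)) (T.nc.flip (T.cl w)) ?_ ?_ ?_ ?_
  · intro h hh
    rw [T.mem_FixT] at hh ⊢
    rw [LinearMap.flip_apply, ← T.nc_assoc, hh]
  · intro h hh
    rw [T.mem_FixT] at hh ⊢
    rw [LinearMap.flip_apply, ← T.nc_assoc, hh]
  · intro h _
    obtain ⟨f, rfl⟩ := T.cl_surj h
    rw [LinearMap.flip_apply, LinearMap.flip_apply, T.nc_cl, T.nc_cl, Category.assoc, hv, Category.comp_id]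
  · intro h _
    obtain ⟨f, rfl⟩ := T.cl_surj h
    rw [LinearMap.flip_apply, LinearMap.flip_apply, T.nc_cl, T.nc_cl, Category.assoc, hw, Category.comp_id]

end Pool.Agent.L0h65.OE
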